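import Pool.Agent.W4.QD.Stms4
import Pool.Agent.W392.QD.SEL

/-!
# Project QD, part SELB: the choice between the two methods, with a parameter
-/

set_option autoImplicit false

namespace Pool.Agent.W140.QD.SELB

open Pool.Agent.W4.CF Pool.Agent.W4.QD Pool.Agent.W540.CF Pool.Agent.W392.QD.SEL Finset

/-- the logarithm of the exponent function -/
noncomputable def bb (n β y ρ : ℝ) : ℝ :=
  min (ρ * ((2 * (1 - β) / n + 1) / (2 - β)))
    (max (ρ + y * (-(((n - 2) * (1 - β)) / (2 - β))))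
      (ρ * (β / (4 - 3 * β)) + y * (n * (1 - β) / (4 - 3 * β))))

lemma BdB_eq (n : ℕ) (β Y R : ℝ) (hY : 1 ≤ Y) (hR : 1 ≤ R) :
    BdB n β Y R = Real.exp (bb n β (Real.log Y) (Real.log R)) := by
  have hY0 : 0 < Y := by linarith
  have hR0 : 0 < R := by linarith
  rw [bb, Real.exp_monotone.map_min, Real.exp_monotone.map_max, BdB, Real.rpow_def_of_pos hR0,
    Real.rpow_def_of_pos hR0, Real.rpow_def_of_pos hY0, Real.rpow_def_of_pos hY0, ← Real.exp_add,
    Real.exp_add (Real.log R) _, Real.exp_log hR0]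

lemma bb_nonneg (n β y ρ : ℝ) (hn : 3 ≤ n) (hb0 : 0 < β) (hb1 : β < 1) (hy : 0 ≤ y)
    (hρ : 0 ≤ ρ) : 0 ≤ bb n β y ρ := by
  have h1 : 0 < 2 - β := by linarith
  have h2 : 0 < 4 - 3 * β := by linarith
  have h3 : 0 < n := by linarith
  have h4 : 0 ≤ 1 - β := by linarith
  refine le_min ?_ (le_max_of_le_right ?_)
  · positivity
  · positivity

/-- the case `k ≥ 2` -/
lemma core (n β L lam lam' p q t D W W1 g0 E S : ℝ) (k : ℕ) (hk : 2 ≤ k) (hn : 3 ≤ n)
    (hb0 : 0 < β) (hb1 : β < 1) (hL : 0 ≤ L)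
    (hp : 0 ≤ p) (hq : 0 ≤ q) (hg0 : 0 ≤ g0) (hS : g0 ≤ S) (hE0 : 0 ≤ E)
    (hlam : lam' = p + q) (hll : lam' ≤ lam) (hWL : W ≤ n * L + g0)
    (ha : E + S < t + q) (hb : E + S < q + D - (n - 2) * L) (hs : (E + S) + (1 - β) * t < lam')
    (hW : W = D + W1) (hW1 : ((k : ℝ) + 1) * q ≤ W1) (hDk : D ≤ k * p)
    (hD1 : D ≤ (k - 1) * p + t) (hD2 : p + (k - 1) * t ≤ D) (hD0 : (n - 2) * L < D) (hlW : lam' ≤ W)
    (hE : (2 * (1 - β) + n) * lam ≤ n * (2 - β) * E ∨
      ((2 - β) * lam - (n - 2) * (1 - β) * L ≤ (2 - β) * E ∧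
        β * lam + n * (1 - β) * L ≤ (4 - 3 * β) * E)) : False := by
  have hkR : (2 : ℝ) ≤ k := by exact_mod_cast hk
  have hl0 : 0 ≤ lam' := by rw [hlam]; linarith
  have hdL : 0 ≤ (n - 2) * L := mul_nonneg (by linarith) hL
  have hA0 : 0 ≤ E + S := by linarith
  have hc : 0 < 1 - β := by linarith
  have E2 : ¬ ((2 - β) * lam - (n - 2) * (1 - β) * L ≤ (2 - β) * E ∧
        β * lam + n * (1 - β) * L ≤ (4 - 3 * β) * E) := by
    rintro ⟨h1, h2⟩
    rcases Nat.lt_or_ge k 3 with h3 | h3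
    · have hk2 : (k : ℝ) = 2 := by
        have : k = 2 := by omega
        rw [this]; norm_num
      rw [hk2] at hD1
      have h4 : E + S < lam' + t - (n - 2) * L := by rw [hlam]; linarith
      have h5 := mul_lt_mul_of_pos_left h4 hc
      have h6 : (2 - β) * lam' ≤ (2 - β) * lam :=
        mul_le_mul_of_nonneg_left hll (by linarith)
      have h7 : 0 ≤ (2 - β) * S := mul_nonneg (by linarith) (by linarith)
      linarith
    · have hk3 : (3 : ℝ) ≤ k := by exact_mod_cast h3
      have h4 : lam' + ((k : ℝ) - 1) * (t + q) + q ≤ W := by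
        rw [hW, hlam]
        linarith
      have h5 : ((k : ℝ) - 1) * (E + S) ≤ ((k : ℝ) - 1) * (t + q) :=
        mul_le_mul_of_nonneg_left ha.le (by linarith)
      have h5' : 2 * (E + S) ≤ ((k : ℝ) - 1) * (E + S) :=
        mul_le_mul_of_nonneg_right (by linarith) hA0
      have h6 : lam' + 3 * (E + S) - t < W := by linarith
      have h8 : 4 * (E + S) - β * t < W := by linarith
      have h9 := mul_lt_mul_of_pos_left h8 hc
      have h9' := mul_lt_mul_of_pos_left hs hb0
      have h10 : (4 - 3 * β) * (E + S) < (1 - β) * W + β * lam' := by linarith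
      have h12 : (1 - β) * W ≤ (1 - β) * (n * L + g0) :=
        mul_le_mul_of_nonneg_left hWL (by linarith)
      have h13 : (4 - 3 * β) * g0 ≤ (4 - 3 * β) * S := mul_le_mul_of_nonneg_left hS (by linarith)
      have h14 : 0 ≤ (3 - 2 * β) * g0 := mul_nonneg (by linarith) hg0
      have h15 : β * lam' ≤ β * lam := mul_le_mul_of_nonneg_left hll hb0.le
      linarith
  rcases hE with hE | hE
  · have hW1q : 0 ≤ W1 := le_trans (mul_nonneg (by linarith) hq) hW1
    have hWpos : 0 < W := by linarith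
    have hkq : (k : ℝ) * q ≤ W1 := by linarith
    have h1 : q * D ≤ W1 * p := by
      calc q * D ≤ q * (k * p) := mul_le_mul_of_nonneg_left hDk hq
        _ = (k * q) * p := by ring
        _ ≤ W1 * p := mul_le_mul_of_nonneg_right hkq hp
    have h2 : q * W ≤ W1 * lam' := by
      rw [hW, hlam]
      linarith
    have h3 : n * W1 ≤ 2 * W + (n - 2) * g0 := by
      have h4 : W1 ≤ W - (n - 2) * L := by linarith
      have h5 : n * W1 ≤ n * (W - (n - 2) * L) := mul_le_mul_of_nonneg_left h4 (by linarith)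
      have h6 : (n - 2) * (W - g0) ≤ (n - 2) * (n * L) :=
        mul_le_mul_of_nonneg_left (by linarith) (by linarith)
      linarith
    have h4 : (n * q) * W ≤ (2 * lam' + n * g0) * W := by
      calc (n * q) * W = n * (q * W) := by ring
        _ ≤ n * (W1 * lam') := mul_le_mul_of_nonneg_left h2 (by linarith)
        _ = (n * W1) * lam' := by ring
        _ ≤ (2 * W + (n - 2) * g0) * lam' := mul_le_mul_of_nonneg_right h3 hl0
        _ = 2 * lam' * W + ((n - 2) * g0) * lam' := by ring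
        _ ≤ 2 * lam' * W + ((n - 2) * g0) * W := by
          have := mul_le_mul_of_nonneg_left hlW (mul_nonneg (by linarith : 0 ≤ n - 2) hg0)
          linarith
        _ ≤ 2 * lam' * W + (n * g0) * W := by
          have : (n - 2) * g0 ≤ n * g0 := mul_le_mul_of_nonneg_right (by linarith) hg0
          have := mul_le_mul_of_nonneg_right this hWpos.le
          linarith
        _ = _ := by ring
    have h5 : n * q ≤ 2 * lam' + n * g0 := le_of_mul_le_mul_right h4 hWpos
    have h6 := mul_lt_mul_of_pos_left ha hc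
    have h7 : (2 - β) * (E + S) < lam' + (1 - β) * q := by linarith
    have h8 := mul_lt_mul_of_pos_left h7 (by linarith : 0 < n)
    have h9 := mul_le_mul_of_nonneg_left h5 hc.le
    have h10 : (2 * (1 - β) + n) * lam' ≤ (2 * (1 - β) + n) * lam :=
      mul_le_mul_of_nonneg_left hll (by linarith)
    have h11 : n * (2 - β) * g0 ≤ n * (2 - β) * S :=
      mul_le_mul_of_nonneg_left hS (mul_nonneg (by linarith) (by linarith))
    have h12 : 0 ≤ n * g0 := mul_nonneg (by linarith) hg0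
    linarith
  · exact E2 hE

theorem t_SELB : Pool.Agent.W4.QD.S_SELB := by
  intro d β c0 c1 ε hd hb0 hb1 hc0 hc1 hε
  set c0' : ℝ := max 1 c0 with hc0'
  set c2 : ℝ := max 1 c1 with hc2
  have h1c0' : 1 ≤ c0' := le_max_left _ _
  have h1c2 : 1 ≤ c2 := le_max_left _ _
  have hdR : (3 : ℝ) ≤ d := by exact_mod_cast hd
  have hd2 : (((d - 2 : ℕ) : ℕ) : ℝ) = (d : ℝ) - 2 := by
    rw [Nat.cast_sub (by omega)]; norm_num
  obtain ⟨k0, hk0⟩ := exists_nat_ge ((d : ℝ) / ε)
  refine ⟨c0' * c2, k0, by positivity, ?_⟩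
  intro m f Y R hm hf hY hR hfY hrR hRY
  have hf0 : f ≠ 0 := by omega
  have hY0 : 0 < Y := by linarith
  have hR0 : 0 < R := by linarith
  set y := Real.log Y with hy
  set ρ := Real.log R with hρ
  set g0 := Real.log c0' with hg0
  set g1 := Real.log c2 with hg1
  have hy0 : 0 ≤ y := Real.log_nonneg hY
  have hρ0 : 0 ≤ ρ := Real.log_nonneg hR
  have hg00 : 0 ≤ g0 := Real.log_nonneg h1c0'
  have hg10 : 0 ≤ g1 := Real.log_nonneg h1c2
  set E := bb d β y ρ with hE
  have hE0 : 0 ≤ E := bb_nonneg d β y ρ hdR hb0 hb1 hy0 hρ0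
  have hεy : 0 ≤ ε * y := by positivity
  set S := g0 + g1 + ε * y with hS
  have hRHS : c0' * c2 * Y ^ ε * BdB d β Y R = Real.exp (E + S) := by
    rw [BdB_eq d β Y R hY hR, hS, Real.exp_add, Real.exp_add, Real.exp_add,
      Real.rpow_def_of_pos hY0, ← hy, hg0, hg1, Real.exp_log (by positivity),
      Real.exp_log (by positivity), mul_comm ε y, ← hρ, ← hE]
    ring
  rw [hRHS]
  have hYd : (0 : ℝ) < Y ^ (d - 2) := by positivity
  have hYd1 : (1 : ℝ) ≤ Y ^ (d - 2) := one_le_pow₀ hY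
  have hqpos : ∀ k, (1 : ℝ) ≤ (qk m f k : ℝ) := fun k => by exact_mod_cast one_le_qk m f k
  by_cases hall : ∀ k : ℕ, 1 ≤ k → (f : ℝ) ≤ Y ^ (d - 2) * qk m f k
  · left
    refine ⟨qk m f (f + 1), qk_dvd m f _ hf0, ?_⟩
    rw [radp_qk, Qk_big m f hf0]
    have h1 : (f : ℝ) / (Y ^ (d - 2) * qk m f (f + 1)) ≤ 1 := by
      rw [div_le_one (mul_pos hYd (by linarith [hqpos (f + 1)]))]
      exact hall _ (by omega)
    rw [max_eq_left h1]
    have : (0 : ℝ) ≤ E + S := by positivity
    simpa using Real.one_le_exp this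
  push Not at hall
  have hex : ∃ j : ℕ, ¬ ((f : ℝ) ≤ Y ^ (d - 2) * qk m f (j + 1)) := by
    obtain ⟨k, hk, hk2⟩ := hall
    refine ⟨k - 1, ?_⟩
    rw [show k - 1 + 1 = k by omega]
    exact not_le.mpr hk2
  classical
  obtain ⟨k, hk1, hk2, hk3⟩ : ∃ k : ℕ, 1 ≤ k ∧ (f : ℝ) ≤ Y ^ (d - 2) * qk m f k ∧
      Y ^ (d - 2) * qk m f (k + 1) < f := by
    have h1 := Nat.find_spec hex
    have h2 := fun j hj => Nat.find_min hex (m := j) hj
    set j := Nat.find hex with hj
    have hj0 : j ≠ 0 := by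
      intro h0
      rw [h0] at h1
      apply h1
      rw [show 0 + 1 = 1 by rfl, qk_one m f hf0]
      have h3 : (0 : ℝ) ≤ f := Nat.cast_nonneg f
      nlinarith
    refine ⟨j, by omega, ?_, not_le.mp h1⟩
    have h3 := h2 (j - 1) (by omega)
    rw [show j - 1 + 1 = j by omega] at h3
    exact not_not.mp h3
  -- the real quantities
  have hP1 : (1 : ℝ) ≤ (Pk m f k : ℝ) := by exact_mod_cast one_le_Pk m f k
  have hQ1 : (1 : ℝ) ≤ (Qk m f (k + 1) : ℝ) := by exact_mod_cast one_le_Qk m f (k + 1)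
  have hQk1 : (1 : ℝ) ≤ (Qk m f k : ℝ) := by exact_mod_cast one_le_Qk m f k
  have hF1 : (1 : ℝ) ≤ (fk m f k : ℝ) := by exact_mod_cast one_le_fk m f k
  have hfe : (f : ℝ) = qk m f (k + 1) * Dk m f k := by exact_mod_cast f_eq m f k hf0
  have hq1 := hqpos (k + 1)
  have hDpos : Y ^ (d - 2) < (Dk m f k : ℝ) := by
    rw [hfe] at hk3
    have : (qk m f (k + 1) : ℝ) * Y ^ (d - 2) < qk m f (k + 1) * Dk m f k := by
      rw [mul_comm]; exact hk3
    exact lt_of_mul_lt_mul_left this (by linarith)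
  have hD0 : (0 : ℝ) < (Dk m f k : ℝ) := by linarith
  have hf1 : (1 : ℝ) ≤ (f : ℝ) := by exact_mod_cast hf
  have hrP : (radp m f : ℝ) = Pk m f k * Qk m f (k + 1) := by exact_mod_cast radp_eq m f k
  set p := Real.log (Pk m f k) with hp
  set q := Real.log (Qk m f (k + 1)) with hq
  set t := Real.log (fk m f k) with ht
  set D := Real.log (Dk m f k) with hD
  set W := Real.log f with hW
  set W1 := Real.log (qk m f (k + 1)) with hW1
  set lam' := Real.log (radp m f) with hlam
  have hp0 : 0 ≤ p := Real.log_nonneg hP1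
  have hq0 : 0 ≤ q := Real.log_nonneg hQ1
  have ht0 : 0 ≤ t := Real.log_nonneg hF1
  have hlpq : lam' = p + q := by
    rw [hlam, hrP, Real.log_mul (by positivity) (by positivity)]
  have hr1 : (1 : ℝ) ≤ radp m f := by
    rw [hrP]
    exact one_le_mul_of_one_le_of_one_le hP1 hQ1
  have hll : lam' ≤ ρ := Real.log_le_log (by linarith) hrR
  have hρy : ρ ≤ g1 + (d - 2) * y := by
    have h1 : R ≤ c2 * Y ^ (d - 2) :=
      hRY.trans (mul_le_mul_of_nonneg_right (le_max_right _ _) hYd.le)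
    have h2 := Real.log_le_log hR0 h1
    rwa [Real.log_mul (by positivity) (by positivity), Real.log_pow, hd2] at h2
  have hWL : W ≤ d * y + g0 := by
    have h1 : (f : ℝ) ≤ c0' * Y ^ d :=
      hfY.trans (mul_le_mul_of_nonneg_right (le_max_right _ _) (by positivity))
    have h2 := Real.log_le_log (by linarith) h1
    rw [Real.log_mul (by positivity) (by positivity), Real.log_pow] at h2
    linarith
  have hWD : W = D + W1 := by
    rw [hW, hfe, Real.log_mul (by linarith) hD0.ne']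
    ring
  have hW1q : ((k : ℝ) + 1) * q ≤ W1 := by
    have h1 : (Qk m f (k + 1) : ℝ) ^ (k + 1) ≤ qk m f (k + 1) := by
      exact_mod_cast Qk_pow_le m f (k + 1)
    have h2 := Real.log_le_log (by positivity) h1
    rw [Real.log_pow] at h2
    push_cast at h2
    exact h2
  have hDk : D ≤ k * p := by
    have h1 : (Dk m f k : ℝ) ≤ (Pk m f k : ℝ) ^ k := by exact_mod_cast Dk_le m f k
    have h2 := Real.log_le_log hD0 h1
    rwa [Real.log_pow] at h2
  have hk1c : (((k - 1 : ℕ) : ℕ) : ℝ) = (k : ℝ) - 1 := by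
    rw [Nat.cast_sub hk1]; norm_num
  have hD1 : D ≤ (k - 1) * p + t := by
    have h1 : (Dk m f k : ℝ) ≤ (Pk m f k : ℝ) ^ (k - 1) * fk m f k := by
      exact_mod_cast Dk_le' m f k hk1
    have h2 := Real.log_le_log hD0 h1
    rwa [Real.log_mul (by positivity) (by positivity), Real.log_pow, hk1c] at h2
  have hD2 : p + (k - 1) * t ≤ D := by
    have h1 : (Pk m f k : ℝ) * (fk m f k : ℝ) ^ (k - 1) ≤ Dk m f k := by
      exact_mod_cast le_Dk m f k hk1
    have h2 := Real.log_le_log (by positivity) h1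
    rwa [Real.log_mul (by positivity) (by positivity), Real.log_pow, hk1c] at h2
  have hDL : (d - 2) * y < D := by
    have h2 := Real.log_lt_log hYd hDpos
    rwa [Real.log_pow, hd2] at h2
  have hlW : lam' ≤ W := by
    have h1 : 0 ≤ (k : ℝ) * q := by positivity
    have h2 : p ≤ D := by
      have h3 : 0 ≤ ((k : ℝ) - 1) * t := by
        refine mul_nonneg ?_ ht0
        have : (1 : ℝ) ≤ k := by exact_mod_cast hk1
        linarith
      linarith
    rw [hlpq, hWD]
    linarith
  -- the three costs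
  by_cases ha : t + q ≤ E + S
  · left
    refine ⟨qk m f k, qk_dvd m f k hf0, ?_⟩
    have h1 : (f : ℝ) / (Y ^ (d - 2) * qk m f k) ≤ 1 := by
      rw [div_le_one (mul_pos hYd (by linarith [hqpos k]))]
      exact hk2
    rw [max_eq_left h1, mul_one, radp_qk, Qk_eq]
    push_cast
    rw [← Real.exp_log (by positivity : (0 : ℝ) < fk m f k),
      ← Real.exp_log (by positivity : (0 : ℝ) < Qk m f (k + 1)), ← Real.exp_add]
    exact Real.exp_le_exp.mpr ha
  by_cases hb : q + D - (d - 2) * y ≤ E + S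
  · left
    refine ⟨qk m f (k + 1), qk_dvd m f _ hf0, ?_⟩
    have h0 : (0 : ℝ) < Y ^ (d - 2) * qk m f (k + 1) := mul_pos hYd (by linarith)
    have h1 : 1 ≤ (f : ℝ) / (Y ^ (d - 2) * qk m f (k + 1)) := by
      rw [one_le_div h0]
      exact hk3.le
    have h2 : (f : ℝ) / (Y ^ (d - 2) * qk m f (k + 1)) = Dk m f k / Y ^ (d - 2) := by
      rw [hfe]
      field_simp
    rw [max_eq_right h1, radp_qk, h2]
    rw [← Real.exp_log (by positivity : (0 : ℝ) < Qk m f (k + 1)),
      ← Real.exp_log hD0, ← Real.exp_log hYd, ← Real.exp_sub, ← Real.exp_add, Real.log_pow, hd2]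
    refine Real.exp_le_exp.mpr ?_
    linarith
  push Not at ha hb
  rcases Nat.lt_or_ge k0 k with hkk | hkk
  · -- large k
    exfalso
    have hk5 : (d : ℝ) / ε ≤ k := hk0.trans (by exact_mod_cast hkk.le)
    have h5 : (d : ℝ) ≤ ε * k := by
      rw [div_le_iff₀ hε] at hk5
      linarith
    have h1 : (Qk m f k : ℝ) ^ k ≤ f := by
      have h1 : Qk m f k ^ k ≤ f :=
        (Qk_pow_le m f k).trans (Nat.le_of_dvd hf (qk_dvd m f k hf0))
      exact_mod_cast h1
    have h2 := Real.log_le_log (by positivity) h1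
    rw [Real.log_pow] at h2
    have h3 : Real.log (Qk m f k) = t + q := by
      rw [Qk_eq]
      push_cast
      rw [Real.log_mul (by positivity) (by positivity)]
    rw [h3] at h2
    have hkR : (1 : ℝ) ≤ k := by exact_mod_cast hk1
    have h4 : (k : ℝ) * (t + q) ≤ k * (g0 + ε * y) := by
      have h6 : (d : ℝ) * y ≤ ε * k * y := mul_le_mul_of_nonneg_right h5 hy0
      have h7 : 1 * g0 ≤ k * g0 := mul_le_mul_of_nonneg_right hkR hg00
      linarith
    have h6 := le_of_mul_le_mul_left h4 (by linarith)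
    linarith
  rcases Nat.lt_or_ge k 2 with hk | hk
  · exfalso
    have hk : k = 1 := by omega
    subst hk
    push_cast at hDk
    linarith
  by_cases hs : lam' ≤ E + S + (1 - β) * t
  · right
    refine ⟨k, hk, hkk, ?_⟩
    rw [Real.rpow_def_of_pos (by positivity : (0 : ℝ) < fk m f k), ← Real.exp_add,
      ← Real.exp_log (by positivity : (0 : ℝ) < radp m f)]
    refine Real.exp_le_exp.mpr ?_
    rw [← hlam, ← ht]
    linarith
  · exfalso
    push Not at hs
    have hs' : (E + S) + (1 - β) * t < lam' := hs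
    have hb2 : (0 : ℝ) < 2 - β := by linarith
    have hb4 : (0 : ℝ) < 4 - 3 * β := by linarith
    have hd0 : (0 : ℝ) < d := by linarith
    have hEE : (2 * (1 - β) + (d : ℝ)) * ρ ≤ d * (2 - β) * E ∨
      ((2 - β) * ρ - ((d : ℝ) - 2) * (1 - β) * y ≤ (2 - β) * E ∧
        β * ρ + (d : ℝ) * (1 - β) * y ≤ (4 - 3 * β) * E) := by
      rcases min_choice (ρ * ((2 * (1 - β) / (d : ℝ) + 1) / (2 - β)))
        (max (ρ + y * (-((((d : ℝ) - 2) * (1 - β)) / (2 - β))))
        (ρ * (β / (4 - 3 * β)) + y * ((d : ℝ) * (1 - β) / (4 - 3 * β)))) with h | h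
      · left
        have h1 : E = ρ * ((2 * (1 - β) / (d : ℝ) + 1) / (2 - β)) := h
        rw [h1]
        apply le_of_eq
        field_simp
      · right
        have h1 : E = (max (ρ + y * (-((((d : ℝ) - 2) * (1 - β)) / (2 - β))))
          (ρ * (β / (4 - 3 * β)) + y * ((d : ℝ) * (1 - β) / (4 - 3 * β)))) := h
        constructor
        · have h2 : ρ + y * (-((((d : ℝ) - 2) * (1 - β)) / (2 - β))) ≤ E := by
            rw [h1]; exact le_max_left _ _
          have h3 := mul_le_mul_of_nonneg_left h2 hb2.le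
          have h4 : (2 - β) * (ρ + y * (-((((d : ℝ) - 2) * (1 - β)) / (2 - β)))) =
              (2 - β) * ρ - ((d : ℝ) - 2) * (1 - β) * y := by
            field_simp
            ring
          rwa [h4] at h3
        · have h2 : ρ * (β / (4 - 3 * β)) + y * ((d : ℝ) * (1 - β) / (4 - 3 * β)) ≤ E := by
            rw [h1]; exact le_max_right _ _
          have h3 := mul_le_mul_of_nonneg_left h2 hb4.le
          have h4 : (4 - 3 * β) * (ρ * (β / (4 - 3 * β)) +
              y * ((d : ℝ) * (1 - β) / (4 - 3 * β))) = β * ρ + (d : ℝ) * (1 - β) * y := by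
            field_simp
          rwa [h4] at h3
    exact core d β y ρ lam' p q t D W W1 g0 E S k hk hdR hb0 hb1 hy0 hp0 hq0 hg00 (by linarith)
      hE0 hlpq hll hWL ha hb hs' hWD hW1q hDk hD1 hD2 hDL hlW hEE

end Pool.Agent.W140.QD.SELB
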